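import Pool.Agent.Q168.EC.Cls

/-!
# Rank-one subgroups and varieties dominated by products of elliptic curves of rank at least two

Let `E : y² = x³ + a x + b` be an elliptic curve over a number field `K` and let `H` be a subgroup
of `E(K)` of rank at most one. The class `Dominated K` of sets of points with coordinates in `K` is
the least class which contains
* the good sets (`Good`): sets with rational curves over `K` of unbounded degree, affine spaces,
  smooth quartic double covers, and what is built from them;
* the sets of the affine points over `K` of the elliptic curves over `K` of rank at least two;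
and is closed under finite unions, finite products and dominated images.

A rational map on a set of this class with values in `H` has finitely many values. So no subgroup
of `E(ℚ)` of rank one (of an elliptic curve `E` over `ℚ` of any rank) is a finite union of images of
such sets; in particular the set of the rational points of a hypersurface `P(x, y, z) = 0` which
defines such a subgroup is not in the class. On the other hand the subgroups of finite index of
`E(ℚ)`, `E` of rank at least two, are finite unions of images of `E(ℚ)`.

The proof. Let `O` be the set of the abscissas of the points of `H`. By the theorem of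
Mordell-Weil and the canonical height (in a number field which contains the `2`-torsion of all the
curves used) `O` has `O(√B)` elements of logarithmic height at most `B`, and an elliptic curve of
rank at least two has at least `c B` points of height at most `B`. As the fibres of a nonconstant
rational function on a curve have a bounded number of elements, a rational function on such a
curve with values in `O` is constant, and the same holds for the projective line. By induction each
set of the class is a finite union of irreducible sets on which all rational functions with values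
in `O` are constant.
-/

set_option autoImplicit false

namespace Pool.Agent.Results.MP_59db5d_nt.ProductsOfCurves

open MvPolynomial WeierstrassCurve Pool.Agent.Q168.EC

theorem result :
    -- rational maps with values in a subgroup of rank at most one
    (∀ (K : Type) [Field K] [NumberField K] [DecidableEq K] (a b : K),
      4 * a ^ 3 + 27 * b ^ 2 ≠ 0 →
      ∀ H : AddSubgroup (crv a b).toAffine.Point, Module.rank ℤ H ≤ 1 →
      ∀ (σ : Type) (S : Set (σ → K)), Dominated K S → ∀ p₁ p₂ q : MvPolynomial σ K,
      vals S p₁ p₂ q ⊆ aff H → (vals S p₁ p₂ q).Finite) ∧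
    -- subgroups of rank one are not finite unions of images
    (∀ a b : ℚ, 4 * a ^ 3 + 27 * b ^ 2 ≠ 0 →
      ∀ H : AddSubgroup (crv a b).toAffine.Point, Module.rank ℤ H = 1 →
      ∀ (k : ℕ) (σ : Fin k → Type) (S : ∀ i, Set (σ i → ℚ)), (∀ i, Dominated ℚ (S i)) →
      ∀ p₁ p₂ q : ∀ i, MvPolynomial (σ i) ℚ,
      aff H ≠ ⋃ i, vals (S i) (p₁ i) (p₂ i) (q i)) ∧
    -- existential definitions of subgroups of rank one
    (∀ a b : ℚ, 4 * a ^ 3 + 27 * b ^ 2 ≠ 0 →
      ∀ H : AddSubgroup (crv a b).toAffine.Point, Module.rank ℤ H = 1 →
      ∀ (m : ℕ) (P : MvPolynomial (Fin 2 ⊕ Fin m) ℚ),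
      (∀ x y : ℚ, (x, y) ∈ aff H ↔ ∃ z : Fin m → ℚ, eval (Sum.elim ![x, y] z) P = 0) →
      ¬ Dominated ℚ {v | eval v P = 0}) := by
  have h1 : ∀ (K : Type) [Field K] [NumberField K] [DecidableEq K] (a b : K),
      4 * a ^ 3 + 27 * b ^ 2 ≠ 0 →
      ∀ H : AddSubgroup (crv a b).toAffine.Point, Module.rank ℤ H ≤ 1 →
      ∀ (σ : Type) (S : Set (σ → K)), Dominated K S → ∀ p₁ p₂ q : MvPolynomial σ K,
      vals S p₁ p₂ q ⊆ aff H → (vals S p₁ p₂ q).Finite :=
    fun K _ _ _ a b hab H hH σ S hS p₁ p₂ q hv => finite_values hab H hH hS p₁ p₂ q hv
  have h2 : ∀ a b : ℚ, 4 * a ^ 3 + 27 * b ^ 2 ≠ 0 →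
      ∀ H : AddSubgroup (crv a b).toAffine.Point, Module.rank ℤ H = 1 →
      ∀ (k : ℕ) (σ : Fin k → Type) (S : ∀ i, Set (σ i → ℚ)), (∀ i, Dominated ℚ (S i)) →
      ∀ p₁ p₂ q : ∀ i, MvPolynomial (σ i) ℚ,
      aff H ≠ ⋃ i, vals (S i) (p₁ i) (p₂ i) (q i) := by
    intro a b hab H hH k σ S hS p₁ p₂ q hiff
    apply aff_infinite H hH
    rw [hiff]
    refine Set.finite_iUnion fun i => h1 ℚ a b hab H hH.le (σ i) (S i) (hS i)
        (p₁ i) (p₂ i) (q i) ?_
    rw [hiff]
    exact Set.subset_iUnion (fun i => vals (S i) (p₁ i) (p₂ i) (q i)) i
  refine ⟨h1, h2, ?_⟩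
  intro a b hab H hH m P hP hD
  refine h2 a b hab H hH 1 (fun _ => Fin 2 ⊕ Fin m) (fun _ => {v | eval v P = 0}) (fun _ => hD)
    (fun _ => X (Sum.inl 0)) (fun _ => X (Sum.inl 1)) (fun _ => 1) ?_
  ext ⟨x, y⟩
  rw [hP x y, Set.mem_iUnion]
  constructor
  · rintro ⟨z, hz⟩
    exact ⟨0, Sum.elim ![x, y] z, hz, by simp, by simp⟩
  · rintro ⟨-, v, hv, -, hxy⟩
    rw [Prod.mk.injEq] at hxy
    obtain ⟨hx, hy⟩ := hxy
    refine ⟨fun j => v (Sum.inr j), ?_⟩
    have h4 : (Sum.elim ![x, y] fun j => v (Sum.inr j)) = v := by
      funext i
      rcases i with i | j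
      · fin_cases i
        · simpa using hx
        · simpa using hy
      · rfl
    rw [h4]
    exact hv

end Pool.Agent.Results.MP_59db5d_nt.ProductsOfCurves
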